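import Pool.Agent.L7h5.SP.Stm

set_option autoImplicit false

/-!
# Project SP, part SUM
-/

namespace Pool.Agent.L7h79.SP
open NumberField Module IntermediateField
open Pool.Agent.K4H33.SK (Qbar GQ Fixes IsZeta AbelianRoot)
open Pool.Agent.K4H33.SK.Stmt (Sub Ideals nrm Cop IsArtin cnt cntAll)
open Pool.Agent.L7h10.RQ (IsAbelian StarkReal0)
open Pool.Agent.L7h5.SP

theorem cnt_congr' (F L : Sub) [NumberField F] (𝔪 : Ideals F)
    (art : Ideals F → GQ) {g g' : GQ} (h : ∀ x ∈ L, g x = g' x) (n : ℕ) :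
    cnt F L 𝔪 art g n = cnt F L 𝔪 art g' n := by
  unfold cnt
  refine Nat.card_congr (Equiv.subtypeEquivRight fun 𝔟 => ?_)
  refine and_congr_right fun _ => and_congr_right fun _ => forall₂_congr fun x hx => ?_
  rw [h x hx]

/-- the ideals counted by `cnt` -/
def cset (F L : Sub) [NumberField F] (𝔪 : Ideals F) (art : Ideals F → GQ) (σ : GQ) (n : ℕ) :
    Set (Ideals F) := {𝔟 | nrm F 𝔟 = n ∧ Cop F 𝔟 𝔪 ∧ ∀ x ∈ L, art 𝔟 x = σ x}

theorem cnt_eq (F L : Sub) [NumberField F] (𝔪 : Ideals F) (art : Ideals F → GQ) (σ : GQ)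
    (n : ℕ) : cnt F L 𝔪 art σ n = (cset F L 𝔪 art σ n).ncard := rfl

theorem finite_norm (F : Sub) [NumberField F] (n : ℕ) :
    {𝔟 : Ideals F | nrm F 𝔟 = n}.Finite := by
  rcases Nat.eq_zero_or_pos n with rfl | hn
  · refine (Set.finite_singleton (⊥ : Ideals F)).subset ?_
    intro 𝔟 h
    exact Ideal.absNorm_eq_zero_iff.1 h
  · exact Ideal.finite_setOf_absNorm_eq n

theorem cset_finite (F L : Sub) [NumberField F] (𝔪 : Ideals F) (art : Ideals F → GQ) (σ : GQ)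
    (n : ℕ) : (cset F L 𝔪 art σ n).Finite :=
  (finite_norm F n).subset fun _ h => h.1

theorem s_SUM : S_SUM := by
  classical
  intro F H H' _ 𝔣 art hab hFH hHH' hart R hR σ hσ n
  have hunion : cset F H 𝔣 art σ n = ⋃ r ∈ R, cset F H' 𝔣 art (σ * r) n := by
    ext 𝔟
    simp only [Set.mem_iUnion]
    constructor
    · rintro ⟨h1, h2, h3⟩
      have h4 : Fixes H (σ⁻¹ * art 𝔟) := by
        intro x hx
        rw [AlgEquiv.mul_apply, h3 x hx, AlgEquiv.aut_inv, AlgEquiv.symm_apply_apply]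
      obtain ⟨r, ⟨hr, hr2⟩, -⟩ := hR.2 _ h4
      refine ⟨r, hr, h1, h2, fun x hx => ?_⟩
      rw [AlgEquiv.mul_apply, ← hr2 x hx, AlgEquiv.mul_apply, AlgEquiv.aut_inv,
        AlgEquiv.apply_symm_apply]
    · rintro ⟨r, hr, h1, h2, h3⟩
      refine ⟨h1, h2, fun x hx => ?_⟩
      rw [h3 x (hHH' hx), AlgEquiv.mul_apply, hR.1 r hr x hx]
  have hdisj : ∀ r ∈ R, ∀ s ∈ R, r ≠ s →
      Disjoint (cset F H' 𝔣 art (σ * r) n) (cset F H' 𝔣 art (σ * s) n) := by
    intro r hr s hs hne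
    rw [Set.disjoint_left]
    rintro 𝔟 ⟨-, -, h3⟩ ⟨-, -, h3'⟩
    apply hne
    obtain ⟨t, -, ht⟩ := hR.2 r (hR.1 r hr)
    have e1 := ht r ⟨hr, fun x _ => rfl⟩
    have e2 := ht s ⟨hs, fun x hx => by
      have h := (h3 x hx).symm.trans (h3' x hx)
      rw [AlgEquiv.mul_apply, AlgEquiv.mul_apply] at h
      exact σ.injective h⟩
    rw [e1, e2]
  rw [cnt_eq, hunion]
  have hfin : ∀ r, (cset F H' 𝔣 art (σ * r) n).Finite := fun r => cset_finite _ _ _ _ _ _
  have h5 : (⋃ r ∈ R, cset F H' 𝔣 art (σ * r) n) =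
      ((R.biUnion fun r => (hfin r).toFinset : Finset (Ideals F)) : Set (Ideals F)) := by
    ext 𝔟
    simp only [Set.mem_iUnion, Finset.coe_biUnion, Finset.mem_coe, Set.Finite.coe_toFinset]
  rw [h5, Set.ncard_coe_finset, Finset.card_biUnion]
  · refine Finset.sum_congr rfl fun r _ => ?_
    rw [cnt_eq, Set.ncard_eq_toFinset_card _ (hfin r)]
  · intro r hr s hs hne
    have := hdisj r hr s hs hne
    show Disjoint (hfin r).toFinset (hfin s).toFinset
    rw [Finset.disjoint_left]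
    intro 𝔟 h1 h2
    exact Set.disjoint_left.1 this ((hfin r).mem_toFinset.1 h1) ((hfin s).mem_toFinset.1 h2)

end Pool.Agent.L7h79.SP
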