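import Pool.Agent.L7h5.SP.Stm

set_option autoImplicit false

/-!
# Project SP, part BEZ, and products of the units
-/

namespace Pool.Agent.L7h79.SP
open NumberField Module IntermediateField
open Pool.Agent.K4H33.SK (Qbar GQ Fixes IsZeta AbelianRoot isZeta_deriv)
open Pool.Agent.K4H33.SK.Stmt (Sub Ideals nrm Cop IsArtin cnt cntAll)
open Pool.Agent.L7h10.RQ (IsAbelian StarkReal0)
open Pool.Agent.L7h5.SP

theorem abelianRoot_one (F : Sub) : AbelianRoot F 2 1 := by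
  intro lam hlam σ τ _ _
  have h1 : (lam - 1) * (lam + 1) = 0 := by linear_combination hlam
  have h2 : lam = 1 ∨ lam = -1 := by
    rcases mul_eq_zero.1 h1 with h | h
    · exact Or.inl (sub_eq_zero.1 h)
    · exact Or.inr (eq_neg_of_add_eq_zero_left h)
  rcases h2 with rfl | rfl
  · simp
  · simp

theorem abelianRoot_mul {F : Sub} {ε ε' : Qbar} (h : AbelianRoot F 2 ε)
    (h' : AbelianRoot F 2 ε') (h0 : ε' ≠ 0) : AbelianRoot F 2 (ε * ε') := by
  intro lam hlam σ τ hσ hτ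
  obtain ⟨μ, hμ⟩ := IsAlgClosed.exists_pow_nat_eq ε' (n := 2) (by norm_num)
  have hμ0 : μ ≠ 0 := by
    rintro rfl
    apply h0
    rw [← hμ]
    norm_num
  have h1 : (lam / μ) ^ 2 = ε := by
    rw [div_pow, hlam, hμ, mul_div_cancel_right₀ _ h0]
  have h2 := h (lam / μ) h1 σ τ hσ hτ
  have h3 := h' μ hμ σ τ hσ hτ
  have h4 : lam = lam / μ * μ := (div_mul_cancel₀ _ hμ0).symm
  rw [h4, map_mul, map_mul, map_mul, map_mul, h2, h3]

theorem abelianRoot_inv {F : Sub} {ε : Qbar} (h : AbelianRoot F 2 ε) :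
    AbelianRoot F 2 ε⁻¹ := by
  intro lam hlam σ τ hσ hτ
  have h1 : lam⁻¹ ^ 2 = ε := by rw [inv_pow, hlam, inv_inv]
  have h2 := h lam⁻¹ h1 σ τ hσ hτ
  rw [map_inv₀, map_inv₀, map_inv₀, map_inv₀] at h2
  exact inv_injective h2

/-- the conditions on the unit which do not involve zeta functions -/
structure Gd (ι : Qbar →+* ℂ) (F H : Sub) (ε : Qbar) : Prop where
  mem : ε ∈ H
  ne : ε ≠ 0
  int : IsIntegral ℤ ε
  int' : IsIntegral ℤ ε⁻¹
  norm : ∀ w : Qbar →+* ℂ, (∃ x ∈ F, w x ≠ ι x) → ‖w ε‖ = 1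
  root : AbelianRoot F 2 ε

namespace Gd
variable {ι : Qbar →+* ℂ} {F H : Sub} {ε ε' : Qbar}

theorem one : Gd ι F H 1 where
  mem := H.one_mem
  ne := one_ne_zero
  int := isIntegral_one
  int' := by rw [inv_one]; exact isIntegral_one
  norm := fun w _ => by rw [map_one, norm_one]
  root := abelianRoot_one F

theorem mul (h : Gd ι F H ε) (h' : Gd ι F H ε') : Gd ι F H (ε * ε') where
  mem := H.mul_mem h.mem h'.mem
  ne := mul_ne_zero h.ne h'.ne
  int := h.int.mul h'.int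
  int' := by rw [mul_inv]; exact h.int'.mul h'.int'
  norm := fun w hw => by rw [map_mul, norm_mul, h.norm w hw, h'.norm w hw, one_mul]
  root := abelianRoot_mul h.root h'.root h'.ne

theorem inv (h : Gd ι F H ε) : Gd ι F H ε⁻¹ where
  mem := H.inv_mem h.mem
  ne := inv_ne_zero h.ne
  int := h.int'
  int' := by rw [inv_inv]; exact h.int
  norm := fun w hw => by rw [map_inv₀, norm_inv, h.norm w hw, inv_one]
  root := abelianRoot_inv h.root

theorem pow (h : Gd ι F H ε) (n : ℕ) : Gd ι F H (ε ^ n) := by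
  induction n with
  | zero => rw [pow_zero]; exact one
  | succ n ih => rw [pow_succ]; exact ih.mul h

theorem zpow (h : Gd ι F H ε) (n : ℤ) : Gd ι F H (ε ^ n) := by
  cases n with
  | ofNat n => rw [Int.ofNat_eq_natCast, zpow_natCast]; exact h.pow n
  | negSucc n => rw [zpow_negSucc]; exact (h.pow (n + 1)).inv

theorem prod {κ : Type} (s : Finset κ) (f : κ → Qbar) (h : ∀ k ∈ s, Gd ι F H (f k)) :
    Gd ι F H (∏ k ∈ s, f k) := by
  classical
  induction s using Finset.induction_on with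
  | empty => rw [Finset.prod_empty]; exact one
  | insert k s hk ih =>
    rw [Finset.prod_insert hk]
    exact (h k (Finset.mem_insert_self _ _)).mul
      (ih fun j hj => h j (Finset.mem_insert_of_mem hj))

theorem mono {H₀ : Sub} (hH : H₀ ≤ H) (h : Gd ι F H₀ ε) : Gd ι F H ε :=
  ⟨hH h.mem, h.ne, h.int, h.int', h.norm, h.root⟩

end Gd

theorem Fixes_one (F : Sub) : Fixes F (1 : GQ) := fun _ _ => rfl

theorem s_BEZ : S_BEZ := by
  intro ι F H _ 𝔣 art m n hFH hmn hm hn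
  obtain ⟨Z, ε, h1, h2, h3, h4, h5, h6⟩ := hm
  obtain ⟨Z', ε', k1, k2, k3, k4, k5, k6⟩ := hn
  obtain ⟨u, v, huv⟩ := hmn
  have hε : ε ≠ 0 := by
    rintro rfl
    have := (h4 1 (Fixes_one F)).2.2.2
    rw [map_zero, map_zero] at this
    exact Complex.exp_ne_zero _ this.symm
  have hε' : ε' ≠ 0 := by
    rintro rfl
    have := (k4 1 (Fixes_one F)).2.2.2
    rw [map_zero, map_zero] at this
    exact Complex.exp_ne_zero _ this.symm
  have g1 : Gd ι F H ε := ⟨h1, hε, h2, h3, h5, h6⟩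
  have g2 : Gd ι F H ε' := ⟨k1, hε', k2, k3, k5, k6⟩
  have g3 := (g1.zpow u).mul (g2.zpow v)
  refine ⟨Z, ε ^ u * ε' ^ v, g3.mem, g3.int, g3.int', fun σ hσ => ?_, g3.norm, g3.root⟩
  obtain ⟨a1, a2, a3, a4⟩ := h4 σ hσ
  obtain ⟨b1, b2, b3, b4⟩ := k4 σ hσ
  have hd : deriv (Z' σ) 0 = deriv (Z σ) 0 := (isZeta_deriv b1 a1 fun _ _ => rfl).1
  refine ⟨a1, a2, a3, ?_⟩
  rw [hd] at b4
  rw [map_mul, map_zpow₀, map_zpow₀, map_mul, map_zpow₀, map_zpow₀, a4, b4,
    ← Complex.exp_int_mul, ← Complex.exp_int_mul, ← Complex.exp_add]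
  congr 1
  have h7 : (u : ℂ) * m + v * n = 1 := by exact_mod_cast congrArg (Int.cast : ℤ → ℂ) huv
  linear_combination (-2 * deriv (Z σ) 0) * h7

theorem IsAbelian.sub {F H H₀ : Sub} (h : IsAbelian F H) (h1 : F ≤ H₀) (h2 : H₀ ≤ H) :
    IsAbelian F H₀ where
  le := h1
  fin := by
    have := h.fin
    exact FiniteDimensional.of_injective (IntermediateField.inclusion h2).toLinearMap
      (IntermediateField.inclusion_injective h2)
  normal := fun σ hσ x hx => by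
    apply Pool.Agent.K4H33.SK.mem_of_fixed
    intro g hg
    have hgF : Fixes F g := fun y hy => hg y (h1 hy)
    rw [h.comm g σ hgF hσ x (h2 hx), hg x hx]
  comm := fun σ τ hσ hτ x hx => h.comm σ τ hσ hτ x (h2 hx)

theorem IsArtin.sub {F H H₀ : Sub} [NumberField F] {𝔣 : Ideals F} {art : Ideals F → GQ}
    (h : IsArtin F H 𝔣 art) (h2 : H₀ ≤ H) : IsArtin F H₀ 𝔣 art where
  fix := h.fix
  mul := fun 𝔟 𝔠 hb hc x hx => h.mul 𝔟 𝔠 hb hc x (h2 hx)
  frob := fun 𝔭 hp hc 𝔓 hP x y hx hy => h.frob 𝔭 hp hc 𝔓 hP x y (h2 hx) hy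

theorem s_SYL (hL : S_LINES) (hB : S_BEZ) : S_SYL := by
  intro ι F H _ 𝔣 art hab hart hyp
  obtain ⟨d, hd⟩ : ∃ d, d = finrank ℚ H := ⟨_, rfl⟩
  induction d using Nat.strong_induction_on generalizing H with
  | _ d ih =>
    by_cases hc : ∀ ℓ ℓ' : ℕ, ℓ.Prime → ℓ'.Prime → NonCyclic F H ℓ → NonCyclic F H ℓ' → ℓ = ℓ'
    · exact hyp H hab.le le_rfl hc
    · push Not at hc
      obtain ⟨ℓ, ℓ', hℓ, hℓ', hn, hn', hne⟩ := hc
      have hsub : ∀ H₀ : Sub, F ≤ H₀ → H₀ < H → StarkReal0 ι F H₀ 𝔣 art := by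
        intro H₀ h1 h2
        have hfin := hab.fin
        have hlt : finrank ℚ H₀ < finrank ℚ H := by
          by_contra hle
          push Not at hle
          exact h2.ne (IntermediateField.eq_of_le_of_finrank_le h2.le hle)
        exact ih (finrank ℚ H₀) (by rw [hd]; exact hlt) H₀ (IsAbelian.sub hab h1 h2.le)
          (IsArtin.sub hart h2.le) (fun H₁ k1 k2 => hyp H₁ k1 (k2.trans h2.le)) rfl
      have hcop : IsCoprime (ℓ : ℤ) (ℓ' : ℤ) :=
        Nat.isCoprime_iff_coprime.2 ((Nat.coprime_primes hℓ hℓ').2 hne)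
      exact hB ι F H 𝔣 art ℓ ℓ' hab.le hcop (hL ι F H 𝔣 art ℓ hℓ hab hart hn hsub)
        (hL ι F H 𝔣 art ℓ' hℓ' hab hart hn' hsub)

end Pool.Agent.L7h79.SP
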