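import Pool.Agent.L7h79.SP.Sum
import Pool.Agent.L7h79.SP.Bez

set_option autoImplicit false

/-!
# Project SP, part LINES
-/

namespace Pool.Agent.L7h79.SP
open NumberField Module IntermediateField
open Pool.Agent.K4H33.SK (Qbar GQ Fixes IsZeta AbelianRoot isZeta_deriv fixes_iff mem_of_fixed)
open Pool.Agent.K4H33.SK.Stmt (Sub Ideals nrm Cop IsArtin cnt cntAll)
open Pool.Agent.L7h10.RQ (IsAbelian StarkReal0)
open Pool.Agent.L7h5.SP

/-! ### Subgroups containing the group of `H` -/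

section fields
variable {F H : Sub}

theorem fixedField_le (W : Subgroup GQ) (hW : H.fixingSubgroup ≤ W) :
    IntermediateField.fixedField W ≤ H := by
  intro x hx
  apply mem_of_fixed
  intro σ hσ
  exact (IntermediateField.mem_fixedField_iff _ _).1 hx σ (hW (fixes_iff.1 hσ))

theorem mem_of_fixes (hfin : FiniteDimensional ℚ H) (W : Subgroup GQ)
    (hW : H.fixingSubgroup ≤ W) {h : GQ} (hh : Fixes (IntermediateField.fixedField W) h) :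
    h ∈ W := by
  have hopen : IsOpen ((H.fixingSubgroup : Subgroup GQ) : Set GQ) :=
    IntermediateField.fixingSubgroup_isOpen H
  have hWo : IsOpen ((W : Subgroup GQ) : Set GQ) := Subgroup.isOpen_mono hW hopen
  have hWc : IsClosed ((W : Subgroup GQ) : Set GQ) := Subgroup.isClosed_of_isOpen W hWo
  have h1 := InfiniteGalois.fixingSubgroup_fixedField (k := ℚ) (K := Qbar) ⟨W, hWc⟩
  have h2 : h ∈ (IntermediateField.fixedField W).fixingSubgroup := fixes_iff.1 hh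
  have h3 : (IntermediateField.fixedField W).fixingSubgroup = W := h1
  rw [h3] at h2
  exact h2

theorem map_mem (hab : IsAbelian F H) {σ : GQ} (hσ : Fixes F σ) {x : Qbar} (hx : x ∈ H) :
    σ x ∈ H := hab.normal σ hσ x hx

theorem fixes_zpow {g : GQ} (h : Fixes F g) (i : ℤ) : Fixes F (g ^ i) := by
  rw [fixes_iff] at *
  exact zpow_mem h i

theorem fixes_mul' {g g' : GQ} (h : Fixes F g) (h' : Fixes F g') : Fixes F (g * g') := by
  rw [fixes_iff] at *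
  exact mul_mem h h'

/-- the automorphisms which agree on `H` with some `a ^ i b ^ j` -/
def WV (hab : IsAbelian F H) (a b : GQ) (ha : Fixes F a) (hb : Fixes F b) : Subgroup GQ where
  carrier := {τ | ∃ i j : ℤ, ∀ x ∈ H, τ x = (a ^ i * b ^ j) x}
  one_mem' := ⟨0, 0, fun x _ => by simp⟩
  mul_mem' := by
    rintro τ τ' ⟨i, j, h⟩ ⟨i', j', h'⟩
    refine ⟨i + i', j + j', fun x hx => ?_⟩
    have hj : Fixes F (b ^ j) := fixes_zpow hb j
    have hi' : Fixes F (a ^ i') := fixes_zpow ha i'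
    have hj' : Fixes F (b ^ j') := fixes_zpow hb j'
    have h1 : (a ^ i' * b ^ j') x ∈ H := map_mem hab (fixes_mul' hi' hj') hx
    have h2 := hab.comm (b ^ j) (a ^ i') hj hi' ((b ^ j') x) (map_mem hab hj' hx)
    rw [AlgEquiv.mul_apply, h' x hx, h _ h1, zpow_add, zpow_add]
    simp only [AlgEquiv.mul_apply]
    rw [h2]
  inv_mem' := by
    rintro τ ⟨i, j, h⟩
    refine ⟨-i, -j, fun x hx => ?_⟩
    have hi : Fixes F (a ^ i) := fixes_zpow ha i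
    have hj : Fixes F (b ^ j) := fixes_zpow hb j
    have hi' : Fixes F (a ^ (-i)) := fixes_zpow ha (-i)
    have hj' : Fixes F (b ^ (-j)) := fixes_zpow hb (-j)
    have h1 : (a ^ (-i) * b ^ (-j)) x ∈ H := map_mem hab (fixes_mul' hi' hj') hx
    have h2 := hab.comm (b ^ j) (a ^ (-i)) hj hi' ((b ^ (-j)) x) (map_mem hab hj' hx)
    have h3 : τ ((a ^ (-i) * b ^ (-j)) x) = x := by
      rw [h _ h1]
      simp only [AlgEquiv.mul_apply]
      rw [h2]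
      have e1 : (b ^ j) ((b ^ (-j)) x) = x := by
        rw [← AlgEquiv.mul_apply, ← zpow_add, add_neg_cancel, zpow_zero]
        rfl
      have e2 : (a ^ i) ((a ^ (-i)) x) = x := by
        rw [← AlgEquiv.mul_apply, ← zpow_add, add_neg_cancel, zpow_zero]
        rfl
      rw [e1, e2]
    rw [AlgEquiv.aut_inv, AlgEquiv.symm_apply_eq]
    exact h3.symm

theorem le_WV (hab : IsAbelian F H) (a b : GQ) (ha : Fixes F a) (hb : Fixes F b) :
    H.fixingSubgroup ≤ WV hab a b ha hb := by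
  intro τ hτ
  refine ⟨0, 0, fun x hx => ?_⟩
  rw [fixes_iff.2 hτ x hx]
  simp

/-- `ℓ` is the exact order of `g` on `H` -/
def Ord (H : Sub) (g : GQ) (ℓ : ℕ) : Prop :=
  Fixes H (g ^ ℓ) ∧ ∀ i : ℤ, Fixes H (g ^ i) → (ℓ : ℤ) ∣ i

theorem agree_zpow_of_dvd {g : GQ} {ℓ : ℕ} (h : Fixes H (g ^ ℓ)) {i j : ℤ}
    (hij : (ℓ : ℤ) ∣ i - j) : ∀ x ∈ H, (g ^ i) x = (g ^ j) x := by
  intro x hx
  obtain ⟨k, hk⟩ := hij
  have h1 : i = j + ℓ * k := by linarith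
  have h2 : Fixes H ((g ^ ℓ) ^ k) := fixes_zpow h k
  rw [h1, zpow_add, AlgEquiv.mul_apply, zpow_mul, zpow_natCast, h2 x hx]

theorem mulE (hab : IsAbelian F H) {a b : GQ} (ha : Fixes F a) (hb : Fixes F b)
    (i j i' j' : ℤ) {x : Qbar} (hx : x ∈ H) :
    (a ^ i * b ^ j) ((a ^ i' * b ^ j') x) = (a ^ (i + i') * b ^ (j + j')) x := by
  have hj : Fixes F (b ^ j) := fixes_zpow hb j
  have hi' : Fixes F (a ^ i') := fixes_zpow ha i'
  have hj' : Fixes F (b ^ j') := fixes_zpow hb j'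
  have h2 := hab.comm (b ^ j) (a ^ i') hj hi' ((b ^ j') x) (map_mem hab hj' hx)
  rw [zpow_add, zpow_add]
  simp only [AlgEquiv.mul_apply]
  rw [h2]

theorem fixes_ab {a b : GQ} (ha : Fixes F a) (hb : Fixes F b) (i j : ℤ) :
    Fixes F (a ^ i * b ^ j) := fixes_mul' (fixes_zpow ha i) (fixes_zpow hb j)

theorem E1 (hab : IsAbelian F H) {a b : GQ} (ha : Fixes F a) (hb : Fixes F b)
    {i j i' j' : ℤ} (h : ∀ x ∈ H, (a ^ i * b ^ j) x = (a ^ i' * b ^ j') x) :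
    Fixes H (a ^ (i - i') * b ^ (j - j')) := by
  intro x hx
  apply (a ^ i' * b ^ j').injective
  rw [mulE hab ha hb _ _ _ _ hx, ← h x hx]
  congr 3
  · ring
  · ring

theorem E2 (hab : IsAbelian F H) {a b : GQ} (_ha : Fixes F a) (hb : Fixes F b) {ℓ : ℕ}
    (hℓa : Fixes H (a ^ ℓ)) (hℓb : Fixes H (b ^ ℓ))
    {i j i' j' : ℤ} (h1 : (ℓ : ℤ) ∣ i - i') (h2 : (ℓ : ℤ) ∣ j - j') :
    ∀ x ∈ H, (a ^ i * b ^ j) x = (a ^ i' * b ^ j') x := by
  intro x hx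
  rw [AlgEquiv.mul_apply, AlgEquiv.mul_apply, agree_zpow_of_dvd hℓb h2 x hx,
    agree_zpow_of_dvd hℓa h1 _ (map_mem hab (fixes_zpow hb j') hx)]

theorem powE (hab : IsAbelian F H) {a b : GQ} (ha : Fixes F a) (hb : Fixes F b) (k i : ℤ) :
    ∀ x ∈ H, ((a * b ^ k) ^ i) x = (a ^ i * b ^ (k * i)) x := by
  have hg : ∀ x, (a * b ^ k) x = (a ^ (1 : ℤ) * b ^ k) x := fun x => by rw [zpow_one]
  induction i using Int.induction_on with
  | zero => intro x _; simp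
  | succ i ih =>
    intro x hx
    rw [zpow_add_one, AlgEquiv.mul_apply, hg, ih _ (map_mem hab (fixes_ab ha hb 1 k) hx),
      mulE hab ha hb _ _ _ _ hx]
    congr 3
    ring
  | pred i ih =>
    intro x hx
    have h1 : (a * b ^ k)⁻¹ x = (a ^ (-1 : ℤ) * b ^ (-k)) x := by
      apply (a * b ^ k).injective
      rw [hg ((a ^ (-1 : ℤ) * b ^ (-k)) x), mulE hab ha hb _ _ _ _ hx, add_neg_cancel,
        add_neg_cancel, zpow_zero, zpow_zero, AlgEquiv.aut_inv, AlgEquiv.apply_symm_apply]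
      simp
    rw [zpow_sub_one, AlgEquiv.mul_apply, h1,
      ih _ (map_mem hab (fixes_ab ha hb (-1) (-k)) hx), mulE hab ha hb _ _ _ _ hx]
    congr 3
    ring

/-- `a` and `b` are independent of order `ℓ` on `H` -/
structure Ind (F H : Sub) (a b : GQ) (ℓ : ℕ) : Prop where
  pr : ℓ.Prime
  ab : IsAbelian F H
  ha : Fixes F a
  hb : Fixes F b
  la : Fixes H (a ^ ℓ)
  lb : Fixes H (b ^ ℓ)
  ind : ∀ i j : ℤ, Fixes H (a ^ i * b ^ j) → (ℓ : ℤ) ∣ i ∧ (ℓ : ℤ) ∣ j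

/-- the subfield fixed by `a` and `b` -/
noncomputable def EV {a b : GQ} {ℓ : ℕ} (h : Ind F H a b ℓ) : Sub :=
  IntermediateField.fixedField (WV h.ab a b h.ha h.hb)

/-- the subfield fixed by `g` -/
noncomputable def EC (hab : IsAbelian F H) (g : GQ) (hg : Fixes F g) : Sub :=
  IntermediateField.fixedField (WV hab g 1 hg (Fixes_one F))

theorem val_dvd {ℓ : ℕ} [NeZero ℓ] (i : ℤ) : (ℓ : ℤ) ∣ i - (((i : ZMod ℓ).val : ℕ) : ℤ) := by
  rw [← ZMod.intCast_zmod_eq_zero_iff_dvd]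
  push_cast
  rw [ZMod.natCast_zmod_val, sub_self]

theorem eq_of_dvd {ℓ : ℕ} [NeZero ℓ] {x y : ZMod ℓ}
    (h : (ℓ : ℤ) ∣ ((x.val : ℕ) : ℤ) - ((y.val : ℕ) : ℤ)) : x = y := by
  rw [← ZMod.intCast_zmod_eq_zero_iff_dvd] at h
  push_cast at h
  rw [ZMod.natCast_zmod_val, ZMod.natCast_zmod_val, sub_eq_zero] at h
  exact h

theorem F_le (hab : IsAbelian F H) (a b : GQ) (ha : Fixes F a) (hb : Fixes F b) :
    F ≤ IntermediateField.fixedField (WV hab a b ha hb) := by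
  intro x hx
  rw [IntermediateField.mem_fixedField_iff]
  rintro τ ⟨i, j, h⟩
  rw [h x (hab.le hx), fixes_ab ha hb i j x hx]

theorem lt_H (hab : IsAbelian F H) (a b : GQ) (ha : Fixes F a) (hb : Fixes F b) {g : GQ}
    (hg : g ∈ WV hab a b ha hb) (hgH : ¬ Fixes H g) :
    IntermediateField.fixedField (WV hab a b ha hb) < H := by
  refine lt_of_le_of_ne (fixedField_le _ (le_WV hab a b ha hb)) ?_
  intro h
  apply hgH
  intro x hx
  rw [← h] at hx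
  exact (IntermediateField.mem_fixedField_iff _ _).1 hx g hg

open Classical in
/-- representatives for `a`, `b` -/
theorem repsV {a b : GQ} {ℓ : ℕ} [NeZero ℓ] (h : Ind F H a b ℓ) :
    IsReps (EV h) H (Finset.univ.image fun p : ZMod ℓ × ZMod ℓ =>
      a ^ ((p.1.val : ℕ) : ℤ) * b ^ ((p.2.val : ℕ) : ℤ)) ∧
    Function.Injective (fun p : ZMod ℓ × ZMod ℓ =>
      a ^ ((p.1.val : ℕ) : ℤ) * b ^ ((p.2.val : ℕ) : ℤ)) := by
  have hinj : ∀ p q : ZMod ℓ × ZMod ℓ, (∀ x ∈ H, (a ^ ((p.1.val : ℕ) : ℤ) *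
      b ^ ((p.2.val : ℕ) : ℤ)) x = (a ^ ((q.1.val : ℕ) : ℤ) * b ^ ((q.2.val : ℕ) : ℤ)) x) →
      p = q := by
    intro p q hpq
    obtain ⟨h1, h2⟩ := h.ind _ _ (E1 h.ab h.ha h.hb hpq)
    exact Prod.ext (eq_of_dvd h1) (eq_of_dvd h2)
  refine ⟨⟨?_, ?_⟩, fun p q hpq => hinj p q fun x _ => by simp only at hpq; rw [hpq]⟩
  · intro r hr x hx
    obtain ⟨p, -, rfl⟩ := Finset.mem_image.1 hr
    exact (IntermediateField.mem_fixedField_iff _ _).1 hx _ ⟨_, _, fun _ _ => rfl⟩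
  · intro g hg
    obtain ⟨i, j, hij⟩ := mem_of_fixes h.ab.fin _ (le_WV h.ab a b h.ha h.hb) hg
    refine ⟨a ^ (((i : ZMod ℓ).val : ℕ) : ℤ) * b ^ (((j : ZMod ℓ).val : ℕ) : ℤ),
      ⟨Finset.mem_image.2 ⟨((i : ZMod ℓ), (j : ZMod ℓ)), Finset.mem_univ _, rfl⟩,
        fun x hx => ?_⟩, ?_⟩
    · rw [hij x hx]
      exact E2 h.ab h.ha h.hb h.la h.lb (val_dvd i) (val_dvd j) x hx
    · rintro r ⟨hr, hr2⟩
      obtain ⟨p, -, rfl⟩ := Finset.mem_image.1 hr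
      have h3 : p = ((i : ZMod ℓ), (j : ZMod ℓ)) := by
        apply hinj
        intro x hx
        rw [← hr2 x hx, hij x hx]
        exact E2 h.ab h.ha h.hb h.la h.lb (val_dvd i) (val_dvd j) x hx
      rw [h3]

open Classical in
/-- representatives for a cyclic group -/
theorem repsC (hab : IsAbelian F H) {g : GQ} (hg : Fixes F g) {ℓ : ℕ} [NeZero ℓ]
    (ho : Ord H g ℓ) :
    IsReps (EC hab g hg) H (Finset.univ.image fun p : ZMod ℓ => g ^ ((p.val : ℕ) : ℤ)) ∧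
    Function.Injective (fun p : ZMod ℓ => g ^ ((p.val : ℕ) : ℤ)) := by
  have hinj : ∀ p q : ZMod ℓ, (∀ x ∈ H, (g ^ ((p.val : ℕ) : ℤ)) x =
      (g ^ ((q.val : ℕ) : ℤ)) x) → p = q := by
    intro p q hpq
    apply eq_of_dvd
    apply ho.2
    intro x hx
    apply (g ^ ((q.val : ℕ) : ℤ)).injective
    rw [← AlgEquiv.mul_apply, ← zpow_add, add_sub_cancel, hpq x hx]
  refine ⟨⟨?_, ?_⟩, fun p q hpq => hinj p q fun x _ => by simp only at hpq; rw [hpq]⟩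
  · intro r hr x hx
    obtain ⟨p, -, rfl⟩ := Finset.mem_image.1 hr
    exact (IntermediateField.mem_fixedField_iff _ _).1 hx _
      ⟨((p.val : ℕ) : ℤ), 0, fun _ _ => by simp⟩
  · intro τ hτ
    obtain ⟨i, j, hij⟩ := mem_of_fixes hab.fin _ (le_WV hab g 1 hg (Fixes_one F)) hτ
    have hij' : ∀ x ∈ H, τ x = (g ^ i) x := by
      intro x hx
      rw [hij x hx, one_zpow, mul_one]
    refine ⟨g ^ (((i : ZMod ℓ).val : ℕ) : ℤ),
      ⟨Finset.mem_image.2 ⟨(i : ZMod ℓ), Finset.mem_univ _, rfl⟩, fun x hx => ?_⟩, ?_⟩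
    · rw [hij' x hx]
      exact agree_zpow_of_dvd ho.1 (val_dvd i) x hx
    · rintro r ⟨hr, hr2⟩
      obtain ⟨p, -, rfl⟩ := Finset.mem_image.1 hr
      have h3 : p = (i : ZMod ℓ) := by
        apply hinj
        intro x hx
        rw [← hr2 x hx, hij' x hx]
        exact agree_zpow_of_dvd ho.1 (val_dvd i) x hx
      rw [h3]

theorem ord_line {a b : GQ} {ℓ : ℕ} (h : Ind F H a b ℓ) (k : ℤ) : Ord H (a * b ^ k) ℓ := by
  constructor
  · intro x hx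
    have h1 := powE h.ab h.ha h.hb k ℓ x hx
    rw [zpow_natCast] at h1
    rw [h1]
    have h2 := E2 h.ab h.ha h.hb h.la h.lb (i := ℓ) (j := k * ℓ) (i' := 0) (j' := 0)
      ⟨1, by ring⟩ ⟨k, by ring⟩ x hx
    rw [h2]
    simp
  · intro i hi
    refine (h.ind i (k * i) ?_).1
    intro x hx
    rw [← powE h.ab h.ha h.hb k i x hx, hi x hx]

theorem ord_b {a b : GQ} {ℓ : ℕ} (h : Ind F H a b ℓ) : Ord H b ℓ := by
  refine ⟨h.lb, fun i hi => (h.ind 0 i ?_).2⟩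
  intro x hx
  rw [zpow_zero, one_mul, hi x hx]

/-! ### The coefficients -/

theorem comb {ℓ : ℕ} [Fact ℓ.Prime] (c : ZMod ℓ → ZMod ℓ → ℕ) :
    ∑ y, ∑ x, c x (x * y) + ∑ y, c 0 y = ℓ * c 0 0 + ∑ x, ∑ y, c x y := by
  classical
  rw [Finset.sum_comm]
  have h1 : ∀ x : ZMod ℓ, x ≠ 0 → ∑ y, c x (x * y) = ∑ y, c x y := by
    intro x hx
    exact Equiv.sum_comp (Equiv.mulLeft₀ x hx) (fun y => c x y)
  have h2 : ∑ x, ∑ y, c x (x * y) = ∑ y : ZMod ℓ, c 0 (0 * y) +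
      ∑ x ∈ Finset.univ.erase (0 : ZMod ℓ), ∑ y, c x (x * y) :=
    (Finset.add_sum_erase _ _ (Finset.mem_univ _)).symm
  have h3 : ∑ x, ∑ y, c x y = ∑ y : ZMod ℓ, c 0 y +
      ∑ x ∈ Finset.univ.erase (0 : ZMod ℓ), ∑ y, c x y :=
    (Finset.add_sum_erase _ _ (Finset.mem_univ _)).symm
  have h4 : ∑ x ∈ Finset.univ.erase (0 : ZMod ℓ), ∑ y, c x (x * y) =
      ∑ x ∈ Finset.univ.erase (0 : ZMod ℓ), ∑ y, c x y :=
    Finset.sum_congr rfl fun x hx => h1 x (Finset.ne_of_mem_erase hx)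
  have h5 : ∑ y : ZMod ℓ, c 0 (0 * y) = ℓ * c 0 0 := by
    simp [ZMod.card]
  rw [h2, h3, h4, h5]
  ring

variable [NumberField F] {𝔣 : Ideals F} {art : Ideals F → GQ}

theorem cntV (hS : S_SUM) {a b : GQ} {ℓ : ℕ} [NeZero ℓ] (h : Ind F H a b ℓ)
    (hart : ∀ 𝔟 : Ideals F, Cop F 𝔟 𝔣 → Fixes F (art 𝔟)) {σ : GQ} (hσ : Fixes F σ) (n : ℕ) :
    cnt F (EV h) 𝔣 art σ n = ∑ x : ZMod ℓ, ∑ y : ZMod ℓ,
      cnt F H 𝔣 art (σ * (a ^ ((x.val : ℕ) : ℤ) * b ^ ((y.val : ℕ) : ℤ))) n := by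
  classical
  obtain ⟨h1, h2⟩ := repsV h
  have h3 := hS F (EV h) H 𝔣 art h.ab (F_le h.ab a b h.ha h.hb)
    (fixedField_le _ (le_WV h.ab a b h.ha h.hb)) hart _ h1 σ hσ n
  rw [h3, Finset.sum_image (h2.injOn), Fintype.sum_prod_type]

theorem cntC (hS : S_SUM) {a b : GQ} {ℓ : ℕ} [NeZero ℓ] (h : Ind F H a b ℓ)
    (hart : ∀ 𝔟 : Ideals F, Cop F 𝔟 𝔣 → Fixes F (art 𝔟)) {σ : GQ} (hσ : Fixes F σ) (n : ℕ)
    (y : ZMod ℓ) (hg : Fixes F (a * b ^ ((y.val : ℕ) : ℤ))) :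
    cnt F (EC h.ab (a * b ^ ((y.val : ℕ) : ℤ)) hg) 𝔣 art σ n = ∑ x : ZMod ℓ,
      cnt F H 𝔣 art (σ * (a ^ ((x.val : ℕ) : ℤ) * b ^ (((x * y).val : ℕ) : ℤ))) n := by
  classical
  obtain ⟨h1, h2⟩ := repsC h.ab hg (ord_line h ((y.val : ℕ) : ℤ))
  have h3 := hS F (EC h.ab (a * b ^ ((y.val : ℕ) : ℤ)) hg) H 𝔣 art h.ab
    (F_le h.ab _ 1 hg (Fixes_one F))
    (fixedField_le _ (le_WV h.ab _ 1 hg (Fixes_one F))) hart _ h1 σ hσ n
  rw [h3, Finset.sum_image (h2.injOn)]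
  refine Finset.sum_congr rfl fun x _ => cnt_congr' F H 𝔣 art (fun z hz => ?_) n
  rw [AlgEquiv.mul_apply, AlgEquiv.mul_apply, powE h.ab h.ha h.hb _ _ z hz]
  congr 1
  refine E2 h.ab h.ha h.hb h.la h.lb ⟨0, by ring⟩ ?_ z hz
  have h4 := val_dvd (ℓ := ℓ) (((y.val : ℕ) : ℤ) * ((x.val : ℕ) : ℤ))
  have h5 : ((((y.val : ℕ) : ℤ) * ((x.val : ℕ) : ℤ) : ℤ) : ZMod ℓ) = x * y := by
    push_cast
    rw [ZMod.natCast_zmod_val, ZMod.natCast_zmod_val, mul_comm]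
  rw [h5] at h4
  exact h4

theorem cntB (hS : S_SUM) {a b : GQ} {ℓ : ℕ} [NeZero ℓ] (h : Ind F H a b ℓ)
    (hart : ∀ 𝔟 : Ideals F, Cop F 𝔟 𝔣 → Fixes F (art 𝔟)) {σ : GQ} (hσ : Fixes F σ) (n : ℕ) :
    cnt F (EC h.ab b h.hb) 𝔣 art σ n = ∑ y : ZMod ℓ,
      cnt F H 𝔣 art (σ * (a ^ (((0 : ZMod ℓ).val : ℕ) : ℤ) * b ^ ((y.val : ℕ) : ℤ))) n := by
  classical
  obtain ⟨h1, h2⟩ := repsC h.ab h.hb (ord_b h)
  have h3 := hS F (EC h.ab b h.hb) H 𝔣 art h.ab (F_le h.ab _ 1 h.hb (Fixes_one F))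
    (fixedField_le _ (le_WV h.ab _ 1 h.hb (Fixes_one F))) hart _ h1 σ hσ n
  rw [h3, Finset.sum_image (h2.injOn)]
  refine Finset.sum_congr rfl fun x _ => ?_
  rw [ZMod.val_zero, Nat.cast_zero, zpow_zero, one_mul]

theorem fixes_line {a b : GQ} {ℓ : ℕ} (h : Ind F H a b ℓ) (k : ℤ) : Fixes F (a * b ^ k) :=
  fixes_mul' h.ha (fixes_zpow h.hb k)

theorem coeffs (hS : S_SUM) {a b : GQ} {ℓ : ℕ} [NeZero ℓ] (h : Ind F H a b ℓ)
    (hart : ∀ 𝔟 : Ideals F, Cop F 𝔟 𝔣 → Fixes F (art 𝔟)) {σ : GQ} (hσ : Fixes F σ) (n : ℕ) :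
    ∑ y : ZMod ℓ, cnt F (EC h.ab (a * b ^ ((y.val : ℕ) : ℤ)) (fixes_line h _)) 𝔣 art σ n +
      cnt F (EC h.ab b h.hb) 𝔣 art σ n = ℓ * cnt F H 𝔣 art σ n + cnt F (EV h) 𝔣 art σ n := by
  have : Fact ℓ.Prime := ⟨h.pr⟩
  have h1 := comb (fun x y : ZMod ℓ =>
    cnt F H 𝔣 art (σ * (a ^ ((x.val : ℕ) : ℤ) * b ^ ((y.val : ℕ) : ℤ))) n)
  rw [cntV hS h hart hσ n, cntB hS h hart hσ n,
    Finset.sum_congr rfl fun y _ => cntC hS h hart hσ n y (fixes_line h _), h1]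
  congr 2
  rw [ZMod.val_zero, Nat.cast_zero, zpow_zero, zpow_zero, mul_one, mul_one]

end fields

/-! ### The continuation and the unit -/

theorem hasDerivAt_of_isZeta {a : ℕ → ℕ} {Z : ℂ → ℂ} (h : IsZeta a Z) :
    HasDerivAt Z (deriv Z 0) 0 := by
  have h2 : ({1}ᶜ : Set ℂ) ∈ nhds (0 : ℂ) := isOpen_compl_singleton.mem_nhds (by simp)
  exact (h.1.differentiableAt h2).hasDerivAt

theorem s_LINES (hS : S_SUM) : S_LINES := by
  intro ι F H _ 𝔣 art ℓ hℓ hab hart hnc hsub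
  obtain ⟨a, b, ha, hb, la, lb, hind⟩ := hnc
  have hne : NeZero ℓ := ⟨hℓ.ne_zero⟩
  have h : Ind F H a b ℓ := ⟨hℓ, hab, ha, hb, la, lb, hind⟩
  have hℓ1 : ¬ (ℓ : ℤ) ∣ 1 := by
    intro h1
    have h2 : ℓ ∣ 1 := by exact_mod_cast h1
    exact hℓ.one_lt.ne' (Nat.dvd_one.1 h2)
  -- the three kinds of subfields
  have hC : ∀ (g : GQ) (hg : Fixes F g), Ord H g ℓ → StarkReal0 ι F (EC hab g hg) 𝔣 art := by
    intro g hg ho
    refine hsub _ (F_le hab g 1 hg (Fixes_one F)) (lt_H hab g 1 hg (Fixes_one F) (g := g)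
      ⟨1, 0, fun x _ => by simp⟩ ?_)
    intro hgH
    exact hℓ1 (ho.2 1 (by rw [zpow_one]; exact hgH))
  have hV : StarkReal0 ι F (EV h) 𝔣 art := by
    refine hsub _ (F_le hab a b ha hb) (lt_H hab a b ha hb (g := a)
      ⟨1, 0, fun x _ => by simp⟩ ?_)
    intro haH
    exact hℓ1 (hind 1 0 (by rw [zpow_one, zpow_zero, mul_one]; exact haH)).1
  have hle : ∀ (g : GQ) (hg : Fixes F g), EC hab g hg ≤ H := fun g hg =>
    fixedField_le _ (le_WV hab g 1 hg (Fixes_one F))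
  have hleV : EV h ≤ H := fixedField_le _ (le_WV hab a b ha hb)
  have hL := fun y : ZMod ℓ => hC (a * b ^ ((y.val : ℕ) : ℤ)) (fixes_line h _) (ord_line h _)
  have hB := hC b hb (ord_b h)
  choose ZL eL hL1 hL2 hL3 hL4 hL5 hL6 using hL
  obtain ⟨ZB, eB, hB1, hB2, hB3, hB4, hB5, hB6⟩ := hB
  obtain ⟨ZV, eV, hV1, hV2, hV3, hV4, hV5, hV6⟩ := hV
  have nz : ∀ (z : Qbar) (w : ℂ), ι z = Complex.exp w → z ≠ 0 := by
    rintro z w hz rfl
    rw [map_zero] at hz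
    exact Complex.exp_ne_zero _ hz.symm
  have gL : ∀ y, Gd ι F H (eL y) := fun y =>
    ⟨hle _ _ (hL1 y), nz _ _ (hL4 y 1 (Fixes_one F)).2.2.2, hL2 y, hL3 y, hL5 y, hL6 y⟩
  have gB : Gd ι F H eB :=
    ⟨hle _ _ hB1, nz _ _ (hB4 1 (Fixes_one F)).2.2.2, hB2, hB3, hB5, hB6⟩
  have gV : Gd ι F H eV :=
    ⟨hleV hV1, nz _ _ (hV4 1 (Fixes_one F)).2.2.2, hV2, hV3, hV5, hV6⟩
  have g := ((Gd.prod Finset.univ eL fun y _ => gL y).mul gB).mul gV.inv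
  have hℓC : (ℓ : ℂ) ≠ 0 := by exact_mod_cast hℓ.ne_zero
  refine ⟨fun σ s => (∑ y, ZL y σ s + ZB σ s - ZV σ s) / ℓ,
    (∏ y, eL y) * eB * eV⁻¹, g.mem, g.int, g.int', fun σ hσ => ?_, g.norm, g.root⟩
  have kL := fun y => hL4 y σ hσ
  obtain ⟨kB1, kB2, kB3, kB4⟩ := hB4 σ hσ
  obtain ⟨kV1, kV2, kV3, kV4⟩ := hV4 σ hσ
  have hder : HasDerivAt (fun s => (∑ y, ZL y σ s + ZB σ s - ZV σ s) / ℓ)
      ((∑ y, deriv (ZL y σ) 0 + deriv (ZB σ) 0 - deriv (ZV σ) 0) / ℓ) 0 := by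
    refine HasDerivAt.div_const ?_ _
    refine HasDerivAt.sub (HasDerivAt.add ?_ (hasDerivAt_of_isZeta kB1))
      (hasDerivAt_of_isZeta kV1)
    exact HasDerivAt.fun_sum fun y _ => hasDerivAt_of_isZeta (kL y).1
  refine ⟨⟨?_, ?_⟩, ?_, ?_, ?_⟩
  · refine DifferentiableOn.div_const (DifferentiableOn.sub (DifferentiableOn.add ?_ kB1.1)
      kV1.1) _
    exact DifferentiableOn.fun_sum fun y _ => (kL y).1.1
  · intro s hs
    have h1 : HasSum (fun n => ∑ y : ZMod ℓ, LSeries.term (fun n =>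
        ((cnt F (EC hab (a * b ^ ((y.val : ℕ) : ℤ)) (fixes_line h _)) 𝔣 art σ n : ℕ) : ℂ)) s n)
        (∑ y, ZL y σ s) := hasSum_sum fun y _ => (kL y).1.2 s hs
    have h2 := ((h1.add (kB1.2 s hs)).sub (kV1.2 s hs)).div_const (ℓ : ℂ)
    have h3 : (fun n => (∑ y : ZMod ℓ, LSeries.term (fun n =>
        ((cnt F (EC hab (a * b ^ ((y.val : ℕ) : ℤ)) (fixes_line h _)) 𝔣 art σ n : ℕ) : ℂ)) s n +
        LSeries.term (fun n => ((cnt F (EC hab b hb) 𝔣 art σ n : ℕ) : ℂ)) s n -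
        LSeries.term (fun n => ((cnt F (EV h) 𝔣 art σ n : ℕ) : ℂ)) s n) / (ℓ : ℂ)) =
        LSeries.term (fun n => ((cnt F H 𝔣 art σ n : ℕ) : ℂ)) s := by
      funext n
      rcases eq_or_ne n 0 with rfl | hn
      · simp only [LSeries.term_zero, Finset.sum_const_zero, add_zero, sub_zero, zero_div]
      · simp only [LSeries.term_of_ne_zero hn]
        have h4 : (∑ y : ZMod ℓ, ((cnt F (EC hab (a * b ^ ((y.val : ℕ) : ℤ))
            (fixes_line h _)) 𝔣 art σ n : ℕ) : ℂ)) + ((cnt F (EC hab b hb) 𝔣 art σ n : ℕ) : ℂ) =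
            ℓ * ((cnt F H 𝔣 art σ n : ℕ) : ℂ) + ((cnt F (EV h) 𝔣 art σ n : ℕ) : ℂ) := by
          exact_mod_cast congrArg (Nat.cast (R := ℂ)) (coeffs hS h hart.fix hσ n)
        rw [← Finset.sum_div, ← add_div, h4, ← sub_div, add_sub_cancel_right, div_right_comm,
          mul_div_cancel_left₀ _ hℓC]
    rw [h3] at h2
    exact h2
  · simp only [kB2, kV2]
    rw [Finset.sum_eq_zero fun y _ => (kL y).2.1, add_zero, sub_zero, zero_div]
  · rw [hder.deriv]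
    have e1 : ∀ z : ℂ, z.im = 0 → (z / (ℓ : ℂ)).im = 0 := by
      intro z hz
      have : (ℓ : ℂ) = ((ℓ : ℝ) : ℂ) := by push_cast; rfl
      rw [this, Complex.div_ofReal_im, hz, zero_div]
    apply e1
    rw [Complex.sub_im, Complex.add_im, Complex.im_sum, kB3, kV3,
      Finset.sum_eq_zero fun y _ => (kL y).2.2.1]
    simp
  · rw [hder.deriv]
    simp only [map_mul, map_inv₀, map_prod]
    rw [kB4, kV4, Finset.prod_congr rfl fun y _ => (kL y).2.2.2, ← Complex.exp_sum,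
      ← Complex.exp_neg, ← Complex.exp_add, ← Complex.exp_add]
    congr 1
    rw [← Finset.mul_sum]
    push_cast
    field_simp
    ring

end Pool.Agent.L7h79.SP
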